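import Pool.Agent.H257R3.SI.Stubs

set_option autoImplicit false

namespace Pool.Agent.H495R3

open Pool.Agent.H257R3.SI

namespace SIA11

theorem wt_nonneg {V : Type} [Fintype V] {ρ : ℝ} (h0 : 0 ≤ ρ) (h1 : ρ ≤ 1) (F : V → Bool) :
    0 ≤ wt ρ F := by
  unfold wt
  apply Finset.prod_nonneg
  intro v _
  split_ifs
  · exact h0
  · linarith

variable {V : Type} [Fintype V] [DecidableEq V]

theorem Ex_mono {ρ : ℝ} (h0 : 0 ≤ ρ) (h1 : ρ ≤ 1) {g g' : (V → Bool) → ℝ} (h : ∀ F, g F ≤ g' F) :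
    Ex ρ g ≤ Ex ρ g' := by
  unfold Ex
  apply Finset.sum_le_sum
  intro F _
  exact mul_le_mul_of_nonneg_left (h F) (wt_nonneg h0 h1 F)

theorem Pr_mono {ρ : ℝ} (h0 : 0 ≤ ρ) (h1 : ρ ≤ 1) {D D' : Set (V → Bool)} (h : D ⊆ D') :
    Pr ρ D ≤ Pr ρ D' := by
  apply Ex_mono h0 h1
  intro F
  exact Set.indicator_le_indicator_of_subset h (fun _ => zero_le_one) F

theorem Pr_nonneg {ρ : ℝ} (h0 : 0 ≤ ρ) (h1 : ρ ≤ 1) (D : Set (V → Bool)) : 0 ≤ Pr ρ D := by
  unfold Pr Ex
  apply Finset.sum_nonneg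
  intro F _
  exact mul_nonneg (wt_nonneg h0 h1 F) (Set.indicator_nonneg (fun _ _ => zero_le_one) F)

theorem Pr_le_one (hA : St_A1) {ρ : ℝ} (h0 : 0 ≤ ρ) (h1 : ρ ≤ 1) (D : Set (V → Bool)) :
    Pr ρ D ≤ 1 := by
  rw [← hA V ρ 1]
  apply Ex_mono h0 h1
  intro F
  exact Set.indicator_le_self' (fun _ _ => zero_le_one) F

theorem pt_comm (a b : V) : pt a b = pt b a := by
  funext v
  unfold pt
  simp only [or_comm]

theorem Dn_comm (r : (V → Bool) → ℝ) (a b : V) : Dn r a b = Dn r b a := by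
  unfold Dn
  rw [pt_comm]

theorem pt_le {a b : V} {F : V → Bool} (ha : F a = true) (hb : F b = true) : pt a b ≤ F := by
  intro v
  unfold pt
  by_cases h : v = a ∨ v = b
  · rcases h with rfl | rfl
    · rw [ha]; exact Bool.le_true _
    · rw [hb]; exact Bool.le_true _
  · simp [h]

theorem log_lem {n : ℕ} {x : ℝ} (h : (1 / 2 : ℝ) ^ (n + 1) ≤ Real.exp (-x)) : x ≤ n + 1 := by
  have h1 : Real.log ((1 / 2 : ℝ) ^ (n + 1)) ≤ -x := by
    rw [← Real.log_exp (-x)]
    exact Real.log_le_log (by positivity) h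
  rw [Real.log_pow, one_div, Real.log_inv] at h1
  have h2 := Real.log_two_lt_d9
  push_cast at h1
  have h3 : (0:ℝ) ≤ (n:ℝ) + 1 := by positivity
  nlinarith

theorem star (h9 : St_A9) {ρ : ℝ} (h0 : 0 < ρ) (h1 : ρ ≤ 1) {ι : Type} (S : Finset ι)
    (a b : ι → V) (v : V) (r : (V → Bool) → ℝ) (hr : Monotone r) (n : ℕ)
    (hb : Set.InjOn b S) (ha : ∀ p ∈ S, a p = v)
    (hlow : ∀ p ∈ S, (1 / 2 : ℝ) ^ (n + 1) < Pr ρ (Dn r (a p) (b p)))
    (hP : ∀ p ∈ S, ρ / 8 * Pr ρ (Dn r (a p) (b p)) <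
      Pr ρ (Dn r (a p) (b p) ∩ {F | F (a p) = true})) :
    (S.card : ℝ) ≤ ((n : ℝ) + 1) * (1 + Real.log (8 / ρ)) / ρ := by
  have hl : 0 ≤ Real.log (8 / ρ) := by
    apply Real.log_nonneg
    rw [le_div_iff₀ h0]
    linarith
  rcases S.eq_empty_or_nonempty with rfl | hne
  · simp only [Finset.card_empty, Nat.cast_zero]
    positivity
  have h2 := h9 V ρ (ρ / 8 * (1 / 2 : ℝ) ^ (n + 1)) ι S a b v r h0 h1 hr hne hb ha (by
    intro p hp
    have h3 := mul_lt_mul_of_pos_left (hlow p hp) (show 0 < ρ / 8 by positivity)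
    linarith [hP p hp])
  have h3 : Real.log (ρ / 8 * (1 / 2 : ℝ) ^ (n + 1)) ≤ -(ρ * S.card) := by
    rw [← Real.log_exp (-(ρ * S.card))]
    exact Real.log_le_log (by positivity) h2
  rw [Real.log_mul (by positivity) (by positivity), Real.log_pow, one_div, Real.log_inv] at h3
  have h4 : Real.log (ρ / 8) = - Real.log (8 / ρ) := by
    rw [← Real.log_inv, inv_div]
  rw [h4] at h3
  push_cast at h3
  have h5 := Real.log_two_lt_d9
  rw [le_div_iff₀ h0]
  have h6 : (0:ℝ) ≤ n := Nat.cast_nonneg n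
  nlinarith [mul_nonneg h6 hl]

theorem matching (h5 : St_A5) {ρ : ℝ} (h0 : 0 < ρ) (h1 : ρ ≤ 1) {ι : Type}
    (M : Finset ι) (a b : ι → V) (r : (V → Bool) → ℝ) (hr : Monotone r) (n : ℕ)
    (hab : ∀ p ∈ M, ∀ q ∈ M, a p ≠ b q)
    (hM : ∀ p ∈ M, ∀ q ∈ M, p ≠ q → a p ≠ a q ∧ b p ≠ b q)
    (hlow : ∀ p ∈ M, (1 / 2 : ℝ) ^ (n + 1) < Pr ρ (Dn r (a p) (b p))) :
    (M.card : ℝ) ≤ ((n : ℝ) + 1) / ρ ^ 2 := by
  classical
  rcases M.eq_empty_or_nonempty with rfl | hne
  · simp only [Finset.card_empty, Nat.cast_zero]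
    positivity
  obtain ⟨p0, hp0, hmin⟩ := M.exists_min_image (fun p => r (pt (a p) (b p))) hne
  have hinj : Set.InjOn (fun p => (a p, b p)) (M : Set ι) := by
    intro p hp q hq hpq
    by_contra hne
    exact (hM p hp q hq hne).1 (congrArg Prod.fst hpq)
  have hA5 := h5 V ρ (-1) (M.image fun p => (a p, b p)) (by
    intro p hp q hq
    rw [Finset.mem_image] at hp hq
    obtain ⟨p', hp', rfl⟩ := hp
    obtain ⟨q', hq', rfl⟩ := hq
    exact hab p' hp' q' hq') (by
    intro p hp q hq hpq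
    rw [Finset.mem_image] at hp hq
    obtain ⟨p', hp', rfl⟩ := hp
    obtain ⟨q', hq', rfl⟩ := hq
    apply hM p' hp' q' hq'
    rintro rfl
    exact hpq rfl)
  rw [Finset.card_image_of_injOn hinj] at hA5
  have hle : Pr ρ (Dn r (a p0) (b p0)) ≤ (1 + (-1) * ρ ^ 2) ^ M.card := by
    rw [← hA5]
    apply Ex_mono h0.le h1
    intro F
    by_cases hF : F ∈ Dn r (a p0) (b p0)
    · rw [Set.indicator_of_mem hF, Finset.prod_eq_one]
      intro q hq
      rw [Finset.mem_image] at hq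
      obtain ⟨q', hq', rfl⟩ := hq
      have h6 : ¬ (F (a q') = true ∧ F (b q') = true) := by
        rintro ⟨h7, h8⟩
        have h9 := hr (pt_le h7 h8)
        have h10 := hmin q' hq'
        have h11 : r F < r (pt (a p0) (b p0)) := hF
        linarith
      simp only [if_neg h6]
      ring
    · rw [Set.indicator_of_notMem hF]
      apply Finset.prod_nonneg
      intro q _
      split_ifs <;> norm_num
  have h6 : (1 + (-1) * ρ ^ 2) ^ M.card ≤ Real.exp (-(ρ ^ 2 * M.card)) := by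
    have h7 : 1 + (-1) * ρ ^ 2 ≤ Real.exp (-(ρ ^ 2)) := by
      have := Real.add_one_le_exp (-(ρ ^ 2))
      linarith
    have h8 : 0 ≤ 1 + (-1) * ρ ^ 2 := by nlinarith
    calc (1 + (-1) * ρ ^ 2) ^ M.card ≤ (Real.exp (-(ρ ^ 2))) ^ M.card :=
          pow_le_pow_left₀ h8 h7 _
      _ = Real.exp (-(ρ ^ 2 * M.card)) := by
          rw [← Real.exp_nat_mul]
          congr 1
          ring
  have h7 := log_lem (((hlow p0 hp0).le.trans hle).trans h6)
  rw [le_div_iff₀ (by positivity)]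
  linarith

end SIA11

open SIA11 in
theorem a11 (h1 : St_A1) (h5 : St_A5) (h7 : St_A7) (h9 : St_A9) (h10 : St_A10) : St_A11 := by
  intro V _ _ ρ ι P a b r hρ hρ1 hr hab hinj hPa hPb
  have hl : 0 ≤ Real.log (8 / ρ) := by
    apply Real.log_nonneg
    rw [le_div_iff₀ hρ]
    linarith
  have hA : 0 ≤ 2 * (1 + Real.log (8 / ρ)) / ρ ^ 3 := by positivity
  have hmain := h7 ι P (fun p => Pr ρ (Dn r (a p) (b p))) (2 * (1 + Real.log (8 / ρ)) / ρ ^ 3) hA
    (by
      intro p hp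
      refine ⟨?_, Pr_le_one h1 hρ.le hρ1 _⟩
      have h2 := hPa p hp
      have h3 := Pr_nonneg hρ.le hρ1 (Dn r (a p) (b p))
      have h4 : Pr ρ (Dn r (a p) (b p) ∩ {F | F (a p) = true}) ≤ Pr ρ (Dn r (a p) (b p)) :=
        Pr_mono hρ.le hρ1 Set.inter_subset_left
      have h5 : 0 ≤ ρ / 8 * Pr ρ (Dn r (a p) (b p)) := by positivity
      show 0 < Pr ρ (Dn r (a p) (b p))
      linarith)
    (by
      intro n
      have h2 := h10 V ι ({p ∈ P | (1 / 2 : ℝ) ^ (n + 1) < Pr ρ (Dn r (a p) (b p)) ∧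
        Pr ρ (Dn r (a p) (b p)) ≤ (1 / 2 : ℝ) ^ n}) a b (((n : ℝ) + 1) / ρ ^ 2)
        (((n : ℝ) + 1) * (1 + Real.log (8 / ρ)) / ρ) (by positivity) (by positivity)
        (by
          intro M hM hMm
          have hMP : ∀ p ∈ M, p ∈ P ∧ (1 / 2 : ℝ) ^ (n + 1) < Pr ρ (Dn r (a p) (b p)) := by
            intro p hp
            have := Finset.mem_filter.1 (hM hp)
            exact ⟨this.1, this.2.1⟩
          exact matching h5 hρ hρ1 M a b r hr n
            (fun p hp q hq => hab p (hMP p hp).1 q (hMP q hq).1) hMm (fun p hp => (hMP p hp).2))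
        (by
          intro v
          apply star h9 hρ hρ1 _ a b v r hr n
          · intro p hp q hq hpq
            simp only [Finset.coe_filter, Set.mem_setOf_eq, Finset.mem_filter] at hp hq
            exact hinj p hp.1.1 q hq.1.1 (hp.2.trans hq.2.symm) hpq
          · intro p hp
            exact (Finset.mem_filter.1 hp).2
          · intro p hp
            exact (Finset.mem_filter.1 (Finset.mem_filter.1 hp).1).2.1
          · intro p hp
            exact hPa p (Finset.mem_filter.1 (Finset.mem_filter.1 hp).1).1)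
        (by
          intro v
          apply star h9 hρ hρ1 _ b a v r hr n
          · intro p hp q hq hpq
            simp only [Finset.coe_filter, Set.mem_setOf_eq, Finset.mem_filter] at hp hq
            exact hinj p hp.1.1 q hq.1.1 hpq (hp.2.trans hq.2.symm)
          · intro p hp
            exact (Finset.mem_filter.1 hp).2
          · intro p hp
            rw [Dn_comm]
            exact (Finset.mem_filter.1 (Finset.mem_filter.1 hp).1).2.1
          · intro p hp
            rw [Dn_comm]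
            exact hPb p (Finset.mem_filter.1 (Finset.mem_filter.1 hp).1).1)
      refine h2.trans (le_of_eq ?_)
      field_simp)
  refine hmain.trans (le_of_eq ?_)
  unfold c1
  ring

end Pool.Agent.H495R3
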